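import Pool.Agent.H.MP_a1472e_al.C

set_option autoImplicit false

namespace Pool.Agent.H.MP_b9f959_al

open Subgroup Pool.Agent.H.MP_a1472e_al
open scoped commutatorElement

universe u
variable {G : Type u} [Group G]

def der (S : Subgroup G) : ℕ → Subgroup G
  | 0 => S
  | n + 1 => der ⁅S, S⁆ n

theorem der_mono (n : ℕ) : ∀ {S T : Subgroup G}, S ≤ T → der S n ≤ der T n := by
  induction n with
  | zero => intro S T h; exact h
  | succ n ih => intro S T h; exact ih (commutator_mono h h)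

theorem solv (mc : MC G) {H : Subgroup G} (h : Good (H : Set G)) : ∃ d, der H d = ⊥ := by
  refine mc_ind mc (fun C => ∀ H ≤ C, Good (H : Set G) → ∃ d, der H d = ⊥) ?_ H le_top h
  intro C hC ih H hH h
  obtain ⟨F0, f1, -, f3, f4⟩ := sel mc C (fun Y => Y ⊆ H) (fun _ _ a b => b.trans a)
    (x := 1) (by simp)
  obtain ⟨E, N, e1, -, e3, e4, -⟩ := env hC (M0 := closure F0 ⊓ C) inf_le_right
  have he : H ≤ E := fun a ha => e4 _ (f4 _ (Set.insert_subset ha f3) (Set.subset_insert _ _))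
    ((h _ (f1.insert a) (Set.insert_subset ha f3)).mono inf_le_left)
    ⟨subset_closure (Set.mem_insert _ _), hH ha⟩
  have hn := (commutator_mono he he).trans e1
  rcases e3 with rfl | ⟨h1, h2⟩
  · exact ⟨1, le_bot_iff.1 hn⟩
  · obtain ⟨d, hd⟩ := ih N h1 h2 _ hn (h.mono (commutator_le_self H))
    exact ⟨d + 1, hd⟩

theorem cm_lcs {K : Subgroup G} {u y : G} (hu : u ∈ K) (hy : y ∈ K) (n : ℕ) :
    (cm y)^[n] u ∈ K.lowerCentralSeries n := by
  induction n with
  | zero => exact hu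
  | succ n ih =>
    rw [Function.iterate_succ_apply']
    have := commutator_mem_commutator (inv_mem ih) (inv_mem hy)
    simpa [commutatorElement_def, cm] using this

theorem ch_norm {E A : Subgroup G} {x : G} (h : Ok E x A) (n : ℕ) :
    zpowers x ⊔ (ch h (n + 1)).1 ≤ normalizer ((zpowers x ⊔ (ch h n).1 : Subgroup G) : Set G) := by
  refine sup_le (le_sup_left.trans le_normalizer) (le_normalizer_iff_commutator_le_right.2 ?_)
  refine (commutator_mono le_rfl ?_).trans ((ch_comm h n).trans le_sup_right)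
  exact sup_le le_sup_right ((ch h n).2.l.trans le_sup_left)

def Asc (H K : Subgroup G) : Prop :=
  ∃ (α : Ordinal.{u}) (c : Ordinal.{u} → Subgroup G), c 0 = H ∧ c α = K ∧
    (∀ β < α, c β ≤ c (β + 1) ∧ ((c β).subgroupOf (c (β + 1))).Normal) ∧
    ∀ l ≤ α, Order.IsSuccLimit l → c l = ⨆ β < l, c β

theorem asc_refl (H : Subgroup G) : Asc H H :=
  ⟨0, fun _ => H, rfl, rfl, fun _ h => absurd h (not_lt.2 (zero_le)),
    fun _ h h' => absurd (le_zero_iff.1 h) h'.ne_bot⟩

theorem Asc.ext {H : Subgroup G} (d : ℕ → Subgroup G) (h : Asc H (d 0)) (hm : Monotone d)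
    (hn : ∀ n, d (n + 1) ≤ normalizer (d n : Set G)) : Asc H (⨆ n, d n) := by
  obtain ⟨α, c, h0, h1, h2, h3⟩ := h
  have mono : ∀ γ ≤ α, ∀ β ≤ γ, c β ≤ c γ := by
    intro γ
    induction γ using Ordinal.limitRecOn with
    | zero => intro _ β hβ; rw [le_zero_iff.1 hβ]
    | add_one o ih =>
      intro ho β hβ
      have ho' := Order.add_one_le_iff.1 ho
      rcases hβ.eq_or_lt with rfl | hβ
      · exact le_rfl
      · exact (ih ho'.le β (Order.lt_add_one_iff.1 hβ)).trans (h2 o ho').1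
    | limit o ho _ =>
      intro ho' β hβ
      rcases hβ.eq_or_lt with rfl | hβ
      · exact le_rfl
      · rw [h3 o ho' ho]; exact le_iSup₂_of_le β hβ le_rfl
  classical
  let e : Ordinal.{u} → Subgroup G := fun γ =>
    if γ ≤ α then c γ else ⨆ (n : ℕ) (_ : α + n ≤ γ), d n
  have e1 : ∀ γ ≤ α, e γ = c γ := fun γ h => if_pos h
  have e2 : ∀ m : ℕ, e (α + m) = d m := fun m => by
    rcases Nat.eq_zero_or_pos m with rfl | hm'
    · simpa [e1] using h1
    · refine (if_neg (by simpa using hm'.ne')).trans (le_antisymm (iSup₂_le fun n hn => hm ?_)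
        (le_iSup₂_of_le m le_rfl le_rfl))
      simpa using hn
  have e3 : e (α + Ordinal.omega0) = ⨆ n, d n := by
    refine (if_neg (by simp)).trans (iSup_congr fun n => iSup_pos ?_)
    simpa using (Ordinal.natCast_lt_omega0 n).le
  have cs : ∀ β < α + Ordinal.omega0, β ≤ α ∨ ∃ m : ℕ, β = α + (m + 1 : ℕ) := fun β hβ => by
    refine (le_or_gt β α).imp id fun h => ?_
    obtain ⟨n, hn⟩ := Ordinal.lt_omega0.1 (Ordinal.sub_lt_of_lt_add hβ Ordinal.omega0_pos)
    have := Ordinal.add_sub_cancel_of_le h.le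
    rw [hn] at this
    cases n with
    | zero => exact absurd (by simpa using this) h.ne
    | succ n => exact ⟨n, this.symm⟩
  have st : ∀ m : ℕ, e (α + m) ≤ e (α + m + 1) ∧
      ((e (α + m)).subgroupOf (e (α + m + 1))).Normal := fun m => by
    rw [add_assoc, ← Nat.cast_succ, e2, e2]
    exact ⟨hm (Nat.le_succ m), (normal_subgroupOf_iff_le_normalizer (hm (Nat.le_succ m))).2 (hn m)⟩
  refine ⟨α + Ordinal.omega0, e, (e1 0 zero_le).trans h0, e3, fun β hβ => ?_, fun l hl hl' => ?_⟩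
  · rcases cs β hβ with h | ⟨m, rfl⟩
    · rcases h.eq_or_lt with rfl | h
      · have := st 0
        rwa [Nat.cast_zero, add_zero] at this
      · rw [e1 β h.le, e1 _ (Order.add_one_le_iff.2 h)]; exact h2 β h
    · exact st _
  · rcases hl.eq_or_lt with rfl | hl
    · rw [e3]
      refine le_antisymm (iSup_le fun n => le_iSup₂_of_le (α + n)
        (by simp) (e2 n).ge) (iSup₂_le fun β hβ => ?_)
      rcases cs β hβ with h | ⟨m, rfl⟩
      · rw [e1 β h]; exact le_iSup_of_le 0 ((mono α le_rfl β h).trans h1.le)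
      · rw [e2]; exact le_iSup d _
    · rcases cs l hl with h | ⟨m, rfl⟩
      · rw [e1 l h, h3 l h hl']
        exact iSup_congr fun β => iSup_congr fun hβ => (e1 β (hβ.le.trans h)).symm
      · rw [Nat.cast_succ, ← add_assoc] at hl'
        exact absurd hl' (Order.not_isSuccLimit_add_one _)

theorem Asc.eng {K : Subgroup G} {x : G} (h : Asc (zpowers x) K) :
    ∀ g ∈ K, ∃ n, (cm x)^[n] g = 1 := by
  obtain ⟨α, c, h0, h1, h2, h3⟩ := h
  have : ∀ γ ≤ α, x ∈ c γ ∧ (∀ β ≤ γ, c β ≤ c γ) ∧ ∀ g ∈ c γ, ∃ n, (cm x)^[n] g = 1 := by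
    intro γ
    induction γ using Ordinal.limitRecOn with
    | zero =>
      refine fun _ => ⟨h0 ▸ mem_zpowers x, fun β hβ => by rw [le_zero_iff.1 hβ], fun g hg => ?_⟩
      rw [h0] at hg
      obtain ⟨k, rfl⟩ := hg
      exact ⟨1, by simp only [Function.iterate_one, cm]; group⟩
    | add_one o ih =>
      intro ho
      have ho' := Order.add_one_le_iff.1 ho
      obtain ⟨a1, a2, a3⟩ := ih ho'.le
      refine ⟨(h2 o ho').1 a1, fun β hβ => ?_, fun g hg => ?_⟩
      · rcases hβ.eq_or_lt with rfl | hβ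
        · exact le_rfl
        · exact (a2 β (Order.lt_add_one_iff.1 hβ)).trans (h2 o ho').1
      · have := (normal_subgroupOf_iff_le_normalizer (h2 o ho').1).1 (h2 o ho').2 hg
        obtain ⟨n, hn⟩ := a3 _ (mul_mem ((mem_normalizer_iff''.1 this _).1 (inv_mem a1)) a1)
        exact ⟨n + 1, hn⟩
    | limit o ho ih =>
      intro ho'
      have le : ∀ β < o, c β ≤ c o := fun β hβ => by
        rw [h3 o ho' ho]; exact le_iSup₂_of_le β hβ le_rfl
      refine ⟨le 0 ho.bot_lt (h0 ▸ mem_zpowers x), fun β hβ => ?_, fun g hg => ?_⟩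
      · rcases hβ.eq_or_lt with rfl | hβ
        · exact le_rfl
        · exact le β hβ
      · rw [h3 o ho' ho, iSup_subtype'] at hg
        have : Nonempty {β // β < o} := ⟨⟨0, ho.bot_lt⟩⟩
        obtain ⟨β, hβ⟩ := (mem_iSup_of_directed (Monotone.directed_le fun a b hab =>
          (ih b.1 b.2 (b.2.le.trans ho')).2.1 a.1 hab)).1 hg
        exact (ih β.1 β.2 (β.2.le.trans ho')).2.2 g hβ
  exact h1 ▸ (this α le_rfl).2.2

theorem asc_solv {x : G} (d : ℕ) : ∀ N : Subgroup G, der N d = ⊥ → x ∈ normalizer (N : Set G) →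
    (∀ g ∈ N, ∃ n, (cm x)^[n] g = 1) → Asc (zpowers x) (zpowers x ⊔ N) := by
  induction d with
  | zero => intro N h _ _; rw [show N = ⊥ from h, sup_bot_eq]; exact asc_refl _
  | succ d ih =>
    intro N h hx he
    have ok : Ok N x ⁅N, N⁆ := ⟨le_rfl, commutator_le_self N, hx, norm_comm hx hx⟩
    have := Asc.ext (fun n => zpowers x ⊔ (ch ok n).1)
      (ih _ h ok.a fun g hg => he g (ok.l hg)) (fun _ _ e => sup_le_sup_left (ch_mono ok e) _)
      (ch_norm ok)
    convert this using 1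
    refine le_antisymm (sup_le (le_iSup_of_le 0 le_sup_left) fun g hg => ?_)
      (iSup_le fun n => sup_le_sup_left (ch ok n).2.l _)
    obtain ⟨n, hn⟩ := he g hg
    exact mem_iSup_of_mem n (mem_sup_right (ch_mem ok n g hg (hn ▸ one_mem _)))

theorem cm_conj (g x a : G) (n : ℕ) :
    (cm x)^[n] (g * a * g⁻¹) = g * (cm (g⁻¹ * x * g))^[n] a * g⁻¹ := by
  induction n with
  | zero => rfl
  | succ n ih => simp only [Function.iterate_succ_apply', ih, cm]; group

theorem ncl (mc : MC G) {a : G} (h : ∀ x, ∃ n, (cm x)^[n] a = 1) (x : G) :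
    Good ((zpowers x ⊔ normalClosure {a} : Subgroup G) : Set G) := by
  have he : ∀ u ∈ Group.conjugatesOfSet {a}, ∀ y, ∃ n, (cm y)^[n] u = 1 := fun u hu y => by
    obtain ⟨b, rfl, hb⟩ := Group.mem_conjugatesOfSet_iff.1 hu
    obtain ⟨g, rfl⟩ := isConj_iff.1 hb
    obtain ⟨n, hn⟩ := h (g⁻¹ * y * g)
    exact ⟨n, by rw [cm_conj, hn]; simp⟩
  have hs := sn_of fun g _ hx => Group.conj_mem_conjugatesOfSet (s := {a}) (c := g) hx
  have := ((main mc (fun x _ => hs x) fun u hu y _ => he u hu y).ext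
    (normalizer_le_normalizer_closure _ (hs x)) fun u hu => he u hu x).clos
  refine this.mono (SetLike.coe_subset_coe.2 (sup_le (zpowers_le.2 (subset_closure
    (Set.mem_insert _ _))) (closure_mono (Set.subset_insert _ _))))

theorem rho (mc : MC G) (a : G) : (∀ x, ∃ n, (cm x)^[n] a = 1) ↔
    ∀ x, Asc (zpowers x) (zpowers x ⊔ normalClosure {a}) := by
  refine ⟨fun h x => ?_, fun h x => (h x).eng a (mem_sup_right (subset_normalClosure rfl))⟩
  have g := ncl mc h x
  obtain ⟨d, hd⟩ := solv mc (g.mono (SetLike.coe_subset_coe.2 le_sup_right))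
  refine asc_solv d _ hd (le_normalizer_of_normal (K := ⊤) trivial) fun u hu => ?_
  obtain ⟨c, hc⟩ := g {u, x} (Set.toFinite _) (Set.insert_subset (mem_sup_right hu)
    (Set.singleton_subset_iff.2 (mem_sup_left (mem_zpowers x))))
  exact ⟨c, mem_bot.1 (hc ▸ cm_lcs (subset_closure (by simp)) (subset_closure (by simp)) c)⟩

end Pool.Agent.H.MP_b9f959_al
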